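import Pool.Agent.helper10.OM.Spec

/-!
# NT as a number of natural numbers
-/

set_option autoImplicit false
namespace Pool.Agent.OM
open Finset Real Pool.Agent.AT Pool.Agent.helper85.FC

open Classical in
theorem NTE (a b m q T : ℕ) (c : ℤ) :
    NT a b m q T c = #{t ∈ range T | TrueCase (b ^ m) (a ^ m) (c + q * ((t : ℕ) : ℤ))} := by
  unfold NT
  refine (card_bij (fun t _ => ((t : ℕ) : ℤ)) ?_ ?_ ?_).symm
  · intro t ht
    rw [mem_filter] at ht ⊢
    refine ⟨?_, ht.2⟩
    simp only [Finset.bind_def, Finset.pure_def, mem_sup, mem_singleton]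
    exact ⟨t, ht.1, rfl⟩
  · intro t _ s _ h
    exact_mod_cast h
  · intro t ht
    rw [mem_filter] at ht
    obtain ⟨h1, h2⟩ := ht
    simp only [Finset.bind_def, Finset.pure_def, mem_sup, mem_singleton] at h1
    obtain ⟨s, hs, rfl⟩ := h1
    exact ⟨s, mem_filter.2 ⟨hs, h2⟩, rfl⟩
end Pool.Agent.OM
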