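import Pool.Agent.helper10.OM.Spec

/-!
# Row OMD: the good exponents have positive lower density
-/

set_option autoImplicit false

namespace Pool.Agent.OM

open Finset Real Pool.Agent.AT Pool.Agent.helper85.FC

theorem OMD : OMD_stmt := by
  classical
  intro h ε hε
  obtain ⟨L, hL⟩ := h ε hε
  refine ⟨1 / (2 * ((L : ℝ) + 1) ^ 2), 2 * L, by positivity, fun a b ha hb hab hne N hN => ?_⟩
  have hL1 : 0 < L := by
    obtain ⟨m, _, h2, _⟩ := hL a b ha hb hab hne 1 le_rfl
    omega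
  choose! m hm1 hmL hmG using fun r => hL a b ha hb hab hne r
  have hcard : N / L ≤ L * #{m ∈ Icc 1 N | Good ε a b m} := by
    have h1 : #(Icc 1 (N / L)) ≤ #(range L ×ˢ {m ∈ Icc 1 N | Good ε a b m}) := by
      refine card_le_card_of_injOn (fun r => (m r, r * m r)) ?_ ?_
      · intro r hr
        rw [mem_coe, mem_Icc] at hr
        have h2 : r * m r ≤ N := by
          calc r * m r ≤ N / L * L := Nat.mul_le_mul hr.2 (hmL r hr.1).le
            _ ≤ N := Nat.div_mul_le_self N L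
        rw [mem_coe, mem_product, mem_range, mem_filter, mem_Icc]
        exact ⟨hmL r hr.1, ⟨Nat.mul_pos hr.1 (hm1 r hr.1), h2⟩, hmG r hr.1⟩
      · intro r hr s hs hrs
        rw [mem_coe, mem_Icc] at hr hs
        simp only [Prod.mk.injEq] at hrs
        have h3 : r * m r = s * m r := by rw [hrs.2, hrs.1]
        exact Nat.eq_of_mul_eq_mul_right (hm1 r hr.1) h3
    rwa [Nat.card_Icc, Nat.add_sub_cancel, card_product, card_range] at h1
  have hLR : (0 : ℝ) < L := by exact_mod_cast hL1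
  have h4 : (N : ℝ) / L < ((N / L : ℕ) : ℝ) + 1 := Nat.lt_floor_add_one ((N : ℝ) / L) |>.trans_eq (by rw [Nat.floor_div_natCast, Nat.floor_natCast])
  have h5 : (2 : ℝ) * L ≤ N := by exact_mod_cast hN
  have h6 : (2 : ℝ) ≤ (N : ℝ) / L := by rwa [le_div_iff₀ hLR]
  have h7 : ((N / L : ℕ) : ℝ) ≤ L * (#{m ∈ Icc 1 N | Good ε a b m} : ℝ) := by exact_mod_cast hcard
  have h8 : (N : ℝ) / L ≤ 2 * (L * (#{m ∈ Icc 1 N | Good ε a b m} : ℝ)) := by linarith
  rw [div_le_iff₀ hLR] at h8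
  have h9 : (0 : ℝ) ≤ (#{m ∈ Icc 1 N | Good ε a b m} : ℝ) := Nat.cast_nonneg _
  rw [div_mul_eq_mul_div, one_mul, div_le_iff₀ (by positivity)]
  nlinarith [mul_nonneg h9 hLR.le]

end Pool.Agent.OM
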