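import Pool.Agent.helper4.OM.NTE

/-!
# Row OMT: a third of all exponents are good
-/

set_option autoImplicit false

namespace Pool.Agent.OM

open Finset Real Pool.Agent.AT Pool.Agent.helper85.FC

/-- Cutting into blocks. -/
lemma OMT_sum (P : ℕ → Prop) [DecidablePred P] (T K : ℕ) :
    #{t ∈ range (K * T) | P t} = ∑ k ∈ range K, #{t ∈ range T | P (k * T + t)} := by
  induction K with
  | zero => simp
  | succ K ih =>
    rw [Finset.sum_range_succ, ← ih, ← Nat.count_eq_card_filter_range, ← Nat.count_eq_card_filter_range,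
      ← Nat.count_eq_card_filter_range, Nat.succ_mul, Nat.count_add]

/-- A long progression of density `1 - ε / 4` has a block of density `1 - ε`. -/
lemma OMT_block (P : ℕ → Prop) [DecidablePred P] (T T₁ : ℕ) (hT : 1 ≤ T) (ε : ℝ) (hε : 0 < ε)
    (h1 : 4 * (T : ℝ) ≤ ε * T₁) (h2 : (1 - ε / 4) * (T₁ : ℝ) ≤ #{t ∈ range T₁ | P t}) :
    ∃ k : ℕ, (1 - ε) * (T : ℝ) ≤ #{t ∈ range T | P (k * T + t)} := by
  by_contra hcon
  push Not at hcon
  have hT0 : (0 : ℝ) < T := by exact_mod_cast hT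
  have hε1 : 0 < 1 - ε := by
    by_contra h
    push Not at h
    have h3 := hcon 0
    have h4 : (0 : ℝ) ≤ #{t ∈ range T | P (0 * T + t)} := Nat.cast_nonneg _
    have h5 : (1 - ε) * (T : ℝ) ≤ 0 := mul_nonpos_of_nonpos_of_nonneg h hT0.le
    linarith
  have h3 : #{t ∈ range T₁ | P t} ≤ #{t ∈ range ((T₁ / T + 1) * T) | P t} := by
    refine card_le_card (filter_subset_filter _ (range_mono ?_))
    have h := Nat.lt_div_mul_add (a := T₁) (b := T) (by omega)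
    rw [Nat.add_mul, Nat.one_mul]
    exact h.le
  rw [OMT_sum] at h3
  have h4 : ((∑ k ∈ range (T₁ / T + 1), #{t ∈ range T | P (k * T + t)} : ℕ) : ℝ) ≤
      (T₁ / T + 1 : ℕ) * ((1 - ε) * T) := by
    push_cast
    calc ∑ k ∈ range (T₁ / T + 1), (#{t ∈ range T | P (k * T + t)} : ℝ)
        ≤ ∑ k ∈ range (T₁ / T + 1), (1 - ε) * (T : ℝ) := sum_le_sum fun k _ => (hcon k).le
      _ = ((T₁ / T : ℕ) + 1) * ((1 - ε) * T) := by
        rw [sum_const, card_range, nsmul_eq_mul]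
        push_cast
        ring
  have h5 : ((T₁ / T : ℕ) : ℝ) * T ≤ T₁ := by exact_mod_cast Nat.div_mul_le_self T₁ T
  have h6 : (#{t ∈ range T₁ | P t} : ℝ) ≤ ((∑ k ∈ range (T₁ / T + 1), #{t ∈ range T | P (k * T + t)} : ℕ) : ℝ) := by
    exact_mod_cast h3
  have h7 : (T₁ / T + 1 : ℕ) * ((1 - ε) * (T : ℝ)) ≤ (1 - ε) * T₁ + (1 - ε) * T := by
    push_cast
    nlinarith
  have h8 : (1 - ε) * (T : ℝ) ≤ T := by nlinarith
  have h9 : (0 : ℝ) < T₁ := by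
    by_contra h
    push Not at h
    have : ε * (T₁ : ℝ) ≤ 0 := mul_nonpos_of_nonneg_of_nonpos hε.le h
    linarith
  nlinarith [mul_pos hε h9]

/-- Arbitrarily long progressions of density `1 - ε / 4` with the difference `q`: the exponent is good. -/
lemma OMT_good (ε : ℝ) (hε : 0 < ε) (a b m q : ℕ) (hq : 1 ≤ q)
    (h : ∀ T₀ : ℕ, ∃ T : ℕ, T₀ ≤ T ∧ ∃ c : ℤ, (1 - ε / 4) * (T : ℝ) ≤ NT a b m q T c) : Good ε a b m := by
  classical
  have hq0 : (q : ℤ) ≠ 0 := by exact_mod_cast (show q ≠ 0 by omega)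
  choose f hf c hc using h
  -- the class modulo `q`
  have hfin : ∃ r : ℕ, ∀ T₀ : ℕ, ∃ T : ℕ, T₀ ≤ T ∧ ((c T % (q : ℤ)).toNat) = r := by
    by_contra hcon
    push Not at hcon
    choose g hg using hcon
    have h1 := hg ((c (∑ r ∈ range q, g r) % (q : ℤ)).toNat) (∑ r ∈ range q, g r) ?_
    · exact h1 rfl
    · refine Finset.single_le_sum (f := g) (fun _ _ => Nat.zero_le _) ?_
      rw [mem_range]
      have h2 := Int.emod_lt_of_pos (c (∑ r ∈ range q, g r)) (show (0 : ℤ) < q by exact_mod_cast hq)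
      have h3 := Int.emod_nonneg (c (∑ r ∈ range q, g r)) hq0
      omega
  obtain ⟨r, hr⟩ := hfin
  refine ⟨q, r, hq, fun T hT => ?_⟩
  obtain ⟨T₀, hT₀⟩ := exists_nat_ge (4 * (T : ℝ) / ε)
  obtain ⟨T₂, hT₂, hcr⟩ := hr T₀
  have h1 : 4 * (T : ℝ) ≤ ε * (f T₂ : ℕ) := by
    rw [div_le_iff₀ hε] at hT₀
    have h2 : (T₀ : ℝ) ≤ (f T₂ : ℕ) := by exact_mod_cast hT₂.trans (hf T₂)
    nlinarith
  have h2 := hc T₂
  rw [NTE] at h2
  obtain ⟨k, hk⟩ := OMT_block (fun t => TrueCase (b ^ m) (a ^ m) (c T₂ + q * ((t : ℕ) : ℤ))) T (f T₂) hT ε hε h1 h2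
  have h3 : (c T₂ : ℤ) = r + q * (c T₂ / q) := by
    have h4 := Int.emod_add_mul_ediv (c T₂) q
    have h5 := Int.emod_nonneg (c T₂) hq0
    rw [← hcr, Int.toNat_of_nonneg h5]
    exact h4.symm
  refine ⟨c T₂ / q + k * T, hk.trans (le_of_eq ?_)⟩
  rw [NTE]
  congr 2
  refine filter_congr fun t _ => ?_
  have h6 : c T₂ + (q : ℤ) * ((k * T + t : ℕ) : ℤ) = r + q * (c T₂ / q + k * T) + q * t := by
    push_cast
    rw [h3]
    have h7 : ((r : ℤ) + q * (c T₂ / q)) / q = c T₂ / q := by rw [← h3]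
    rw [h7]
    ring
  simp only [h6]

theorem OMT : OMT_stmt := by
  classical
  intro hOM ε hε
  obtain ⟨L₀, hL₀1, hL₀⟩ := hOM (ε / 4) (by linarith)
  refine ⟨L₀, fun a b ha hb hab hne L hL => ?_⟩
  obtain ⟨q, hq, hqT⟩ := hL₀ L hL a b ha hb hab hne
  -- the pairs which are not good disappear for large `T`
  have hbad : ∀ p : ℕ × ℕ, ∃ T₀ : ℕ, ¬ Good ε a b (p.1 - p.2) → ∀ T : ℕ, T₀ ≤ T → ∀ c : ℤ,
      ¬ (1 - ε / 4) * (T : ℝ) ≤ NT a b (p.1 - p.2) q T c := by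
    intro p
    by_cases hp : Good ε a b (p.1 - p.2)
    · exact ⟨0, fun h => absurd hp h⟩
    · by_contra hcon
      push Not at hcon
      refine hp (OMT_good ε hε a b _ q hq fun T₀ => ?_)
      obtain ⟨_, T, hT, c, hc⟩ := hcon T₀
      exact ⟨T, hT, c, hc⟩
  choose g hg using hbad
  set T : ℕ := ∑ p ∈ range L ×ˢ range L, g p + 1 with hTdef
  obtain ⟨Y₀, hY₀⟩ := hqT T (by omega)
  have h1 := hY₀ (max Y₀ 1) (le_max_left _ _)
  set Y : ℕ := max Y₀ 1 with hY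
  have hY1 : (1 : ℝ) ≤ Y := by exact_mod_cast le_max_right Y₀ 1
  -- fibres
  have h2 : #{t ∈ VV L Y ×ˢ VV L Y | t.2.1 < t.1.1 ∧ (1 - ε / 4) * T ≤
      NT a b (t.1.1 - t.2.1) q T ((b : ℤ) ^ (t.1.1 - t.2.1) * (1 + 6 * a * b * t.1.2) -
        (a : ℤ) ^ (t.1.1 - t.2.1) * (1 + 6 * a * b * t.2.2))} ≤
      #({p ∈ range L ×ˢ range L | p.2 < p.1 ∧ Good ε a b (p.1 - p.2)} ×ˢ (range Y ×ˢ range Y)) := by
    refine card_le_card_of_injOn (fun t => ((t.1.1, t.2.1), (t.1.2, t.2.2))) ?_ ?_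
    · intro t ht
      rw [mem_coe, mem_filter, mem_product, VV, mem_product, mem_product] at ht
      obtain ⟨⟨⟨hi, hx⟩, hj, hy⟩, hlt, hN⟩ := ht
      rw [mem_coe, mem_product, mem_filter, mem_product, mem_product]
      refine ⟨⟨⟨hi, hj⟩, hlt, ?_⟩, hx, hy⟩
      by_contra hnG
      refine hg (t.1.1, t.2.1) hnG T ?_ _ hN
      have h3 : g (t.1.1, t.2.1) ≤ ∑ p ∈ range L ×ˢ range L, g p :=
        Finset.single_le_sum (f := g) (fun _ _ => Nat.zero_le _) (mem_product.2 ⟨hi, hj⟩)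
      omega
    · intro t _ s _ hts
      simp only [Prod.mk.injEq] at hts
      obtain ⟨⟨e1, e2⟩, e3, e4⟩ := hts
      exact Prod.ext (Prod.ext e1 e3) (Prod.ext e2 e4)
  rw [card_product, card_product, card_range] at h2
  have h3 : ((#{t ∈ VV L Y ×ˢ VV L Y | t.2.1 < t.1.1 ∧ (1 - ε / 4) * T ≤
      NT a b (t.1.1 - t.2.1) q T ((b : ℤ) ^ (t.1.1 - t.2.1) * (1 + 6 * a * b * t.1.2) -
        (a : ℤ) ^ (t.1.1 - t.2.1) * (1 + 6 * a * b * t.2.2))} : ℕ) : ℝ) ≤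
      #{p ∈ range L ×ˢ range L | p.2 < p.1 ∧ Good ε a b (p.1 - p.2)} * ((Y : ℝ) * Y) := by
    exact_mod_cast h2
  have h4 : (1 / 6 - ε / 4) * ((L : ℝ) * Y) ^ 2 ≤
      #{p ∈ range L ×ˢ range L | p.2 < p.1 ∧ Good ε a b (p.1 - p.2)} * ((Y : ℝ) * Y) := by
    refine le_trans ?_ h3
    refine h1.trans (le_of_eq ?_)
    congr
  have h5 : (1 / 6 - ε / 4) * (L : ℝ) ^ 2 ≤
      #{p ∈ range L ×ˢ range L | p.2 < p.1 ∧ Good ε a b (p.1 - p.2)} := by
    have h6 : (0 : ℝ) < (Y : ℝ) * Y := by positivity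
    refine le_of_mul_le_mul_right ?_ h6
    refine le_trans (le_of_eq ?_) h4
    ring
  have h6 : (0 : ℝ) ≤ (L : ℝ) ^ 2 := by positivity
  nlinarith

end Pool.Agent.OM
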